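import Mathlib

namespace Pool.Agent.Results.MP_d7084b_al.Two

open Matrix

variable {n : ℕ}

abbrev Mat (n : ℕ) := Matrix (Fin n) (Fin n) ℂ

/-- the `H`-adjoint -/
noncomputable def adj (H M : Mat n) : Mat n := H⁻¹ * Mᴴ * H

/-- the indefinite inner product -/
noncomputable def ip (H : Mat n) (x y : Fin n → ℂ) : ℂ := star (H *ᵥ x) ⬝ᵥ y

def Decomposable (H X : Mat n) : Prop :=
  ∃ W : Submodule ℂ (Fin n → ℂ), W ≠ ⊥ ∧ W ≠ ⊤ ∧ (∀ x ∈ W, (∀ y ∈ W, ip H x y = 0) → x = 0) ∧
    (∀ x ∈ W, X *ᵥ x ∈ W) ∧ ∀ x ∈ W, adj H X *ᵥ x ∈ W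

/-- the selfadjoint factors of the polar decompositions with commuting factors -/
def Factors (H X : Mat n) : Set (Mat n) :=
  {A | ∃ U, adj H U * U = 1 ∧ adj H A = A ∧ X = U * A ∧ U * A = A * U}

variable {H : Mat n}

lemma adj_mul (hu : IsUnit H.det) (M N : Mat n) : adj H (M * N) = adj H N * adj H M := by
  simp only [adj, conjTranspose_mul, Matrix.mul_assoc, Matrix.mul_nonsing_inv_cancel_left _ _ hu]

lemma adj_shift (hu : IsUnit H.det) (M : Mat n) (c : ℂ) :
    adj H (M - c • 1) = adj H M - star c • 1 := by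
  simp [adj, Matrix.mul_sub, Matrix.sub_mul, Matrix.nonsing_inv_mul _ hu]

lemma ip_adj (hu : IsUnit H.det) (M : Mat n) (x y) :
    ip H x (M *ᵥ y) = ip H (adj H M *ᵥ x) y := by
  simp only [ip, adj, mulVec_mulVec, ← Matrix.mul_assoc, Matrix.mul_nonsing_inv _ hu,
    Matrix.one_mul, star_mulVec, dotProduct_mulVec, vecMul_vecMul, conjTranspose_mul,
    conjTranspose_conjTranspose]

open ComplexOrder in
lemma ip_nd (hu : IsUnit H.det) {x} (h : ∀ y, ip H x y = 0) : x = 0 := by
  have h1 : H *ᵥ x = 0 := dotProduct_star_self_eq_zero.1 (h (H *ᵥ x))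
  exact Matrix.eq_zero_of_mulVec_eq_zero hu.ne_zero h1

lemma nil (hu : IsUnit H.det) {X U : Mat n} (hX : ¬ Decomposable H X)
    (hU : adj H U * U = 1) (h1 : Commute U X) (h2 : Commute U (adj H X)) {u v : ℂ}
    (huv : star u * v = 1) (he : (U - u • 1).det = 0 ∨ (U - v • 1).det = 0) :
    ∃ m, ((U - u • 1) * (U - v • 1)) ^ m = 0 := by
  set P := (U - u • 1) * (U - v • 1) with hP
  have hvu : star v * u = 1 := by simpa [mul_comm] using congrArg star huv
  have cP : ∀ Y, Commute U Y → Commute P Y := fun Y h =>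
    (h.sub_left ((Commute.one_left Y).smul_left u)).mul_left
      (h.sub_left ((Commute.one_left Y).smul_left v))
  have cU : Commute U (adj H U) := (mul_eq_one_comm.1 hU).trans hU.symm
  have e1 : ∀ a b : ℂ, star a * b = 1 → adj H U - star a • 1 = (-star a) • (adj H U * (U - b • 1)) :=
    fun a b h => by
      rw [Matrix.mul_sub, hU, Matrix.mul_smul, Matrix.mul_one, smul_sub, smul_smul, neg_mul, h]
      simp [sub_eq_add_neg, add_comm]
  obtain ⟨Q, hQ, e2⟩ : ∃ Q, Commute Q P ∧ adj H P = Q * P := by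
    refine ⟨(star v * star u) • (adj H U * adj H U),
      ((cP _ cU).symm.mul_left (cP _ cU).symm).smul_left _, ?_⟩
    have c3 : Commute (U - u • 1) (adj H U) := cU.sub_left ((Commute.one_left _).smul_left u)
    rw [hP, adj_mul hu, adj_shift hu, adj_shift hu, e1 v u hvu, e1 u v huv, smul_mul_smul_comm,
      neg_mul_neg, smul_mul_assoc, mul_assoc, ← mul_assoc (U - u • 1), c3.eq]
    simp only [mul_assoc]
  have e3 : ∀ m, adj H (P ^ m) = Q ^ m * P ^ m := fun m => by
    rw [← hQ.mul_pow, ← e2]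
    induction m with
    | zero => simp [adj, Matrix.nonsing_inv_mul _ hu]
    | succ m ih => rw [pow_succ, adj_mul hu, ih, pow_succ']
  obtain ⟨m, hm, hc⟩ := ((Filter.eventually_ge_atTop 1).and
    (LinearMap.eventually_isCompl_ker_pow_range_pow (Matrix.toLin' P))).exists
  rw [← Matrix.toLin'_pow] at hc
  have hk : ∀ x, x ∈ LinearMap.ker (toLin' (P ^ m)) ↔ P ^ m *ᵥ x = 0 := fun x => Iff.rfl
  have inv : ∀ Y, Commute U Y → ∀ x ∈ LinearMap.ker (toLin' (P ^ m)),
      Y *ᵥ x ∈ LinearMap.ker (toLin' (P ^ m)) := fun Y h x hx => by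
    rw [hk] at *
    rw [mulVec_mulVec, ((cP Y h).pow_left m).eq, ← mulVec_mulVec, hx, mulVec_zero]
  refine ⟨m, ?_⟩
  by_contra hne
  refine hX ⟨LinearMap.ker (toLin' (P ^ m)), fun h => ?_, fun h => hne ?_, fun x hx h => ?_,
    inv _ h1, inv _ h2⟩
  · have : (P ^ m).det = 0 := by
      rw [det_pow, hP, det_mul, mul_eq_zero.2 he, zero_pow (by omega)]
    obtain ⟨x, hx, e⟩ := Matrix.exists_mulVec_eq_zero_iff.2 this
    exact hx ((Submodule.mem_bot ℂ).1 (h ▸ (hk x).2 e))
  · exact Matrix.toLin'.map_eq_zero_iff.1 (LinearMap.ker_eq_top.1 h)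
  · refine ip_nd hu fun z => ?_
    obtain ⟨y, hy, _, ⟨w, rfl⟩, rfl⟩ := Submodule.mem_sup.1
      (show z ∈ _ from hc.sup_eq_top ▸ Submodule.mem_top)
    have := ip_adj hu (P ^ m) x w
    rw [e3, ← mulVec_mulVec, (hk x).1 hx, mulVec_zero] at this
    have h0 := h y hy
    simp only [ip, dotProduct_add, toLin'_apply] at *
    rw [h0, this]; simp

lemma syl {U T D : Mat n} (h : U * D = D * T) {u v : ℂ} {m : ℕ}
    (h0 : ((U - u • 1) * (U - v • 1)) ^ m = 0) (h1 : (T - u • 1).det ≠ 0)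
    (h2 : (T - v • 1).det ≠ 0) : D = 0 := by
  have a : ∀ c : ℂ, SemiconjBy D (T - c • 1) (U - c • 1) := fun c => by
    simp [SemiconjBy, Matrix.mul_sub, Matrix.sub_mul, h]
  have b := (((a u).mul_right (a v)).pow_right m).eq
  rw [h0, Matrix.zero_mul] at b
  have c : IsUnit (((T - u • 1) * (T - v • 1)) ^ m) := by
    rw [Matrix.isUnit_iff_isUnit_det, det_pow, det_mul]
    exact (pow_ne_zero _ (mul_ne_zero h1 h2)).isUnit
  exact c.mul_left_eq_zero.1 b

lemma spec {T : Mat n} {u v c : ℂ} {m : ℕ} (h0 : ((T - u • 1) * (T - v • 1)) ^ m = 0)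
    (h1 : c + u ≠ 0) (h2 : c + v ≠ 0) : (-T - c • 1).det ≠ 0 := by
  intro h
  obtain ⟨x, hx, e⟩ := Matrix.exists_mulVec_eq_zero_iff.2 h
  have e1 : T *ᵥ x = (-c) • x := by
    rw [sub_mulVec, neg_mulVec, smul_mulVec, one_mulVec, sub_eq_zero] at e
    rw [neg_smul, ← e, neg_neg]
  have e2 : ∀ d : ℂ, (T - d • 1) *ᵥ x = (-(c + d)) • x := fun d => by
    rw [sub_mulVec, e1, smul_mulVec, one_mulVec, ← sub_smul]; congr 1; ring
  have e3 : ∀ k, ((T - u • 1) * (T - v • 1)) ^ k *ᵥ x = ((c + v) * (c + u)) ^ k • x := by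
    intro k
    induction k with
    | zero => simp
    | succ k ih =>
      rw [pow_succ, ← mulVec_mulVec, ← mulVec_mulVec, e2, mulVec_smul, e2, smul_smul, mulVec_smul,
        ih, smul_smul]
      congr 1; ring
  have := e3 m
  rw [h0, zero_mulVec] at this
  exact hx ((smul_eq_zero.1 this.symm).resolve_left (pow_ne_zero _ (mul_ne_zero h2 h1)))

lemma facts (hu : IsUnit H.det) {X U A : Mat n} (h1 : adj H U * U = 1) (h2 : adj H A = A)
    (h3 : X = U * A) (h4 : U * A = A * U) :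
    U * adj H X = A ∧ adj H X * U = A ∧ Commute U X := by
  refine ⟨?_, ?_, ?_⟩
  · rw [h3, h4, adj_mul hu, h2, ← mul_assoc, mul_eq_one_comm.1 h1, one_mul]
  · rw [h3, adj_mul hu, h2, mul_assoc, h1, mul_one]
  · rw [h3]; exact (Commute.refl U).mul_right h4

theorem result (n : ℕ) (H X : Mat n) (_hH : H.IsHermitian) (hu : H.det ≠ 0) (hX : X ≠ 0)
    (hi : ¬ Decomposable H X) (hne : (Factors H X).Nonempty) : (Factors H X).encard = 2 := by
  have hu := hu.isUnit
  obtain ⟨A, U, h1, h2, h3, h4⟩ := hne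
  obtain ⟨a1, a2, a3⟩ := facts hu h1 h2 h3 h4
  have : Nontrivial (Mat n) := ⟨X, 0, hX⟩
  obtain ⟨u, hsp⟩ := spectrum.nonempty_of_isAlgClosed_of_finiteDimensional ℂ U
  have he : (U - u • 1).det = 0 := by
    rw [spectrum.mem_iff, Algebra.algebraMap_eq_smul_one, ← IsUnit.neg_iff, neg_sub,
      Matrix.isUnit_iff_isUnit_det, isUnit_iff_ne_zero, not_not] at hsp
    exact hsp
  have hu0 : u ≠ 0 := by
    rintro rfl
    have := congrArg det h1
    rw [zero_smul, sub_zero] at he
    simp [he] at this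
  have huv : star u * (star u)⁻¹ = 1 := mul_inv_cancel₀ (star_ne_zero.2 hu0)
  set v := (star u)⁻¹
  have hv0 : v ≠ 0 := right_ne_zero_of_mul_eq_one huv
  have hs : u + v ≠ 0 := fun h => by
    have e : v = -u := by linear_combination h
    rw [e, mul_neg, Complex.star_def, ← Complex.normSq_eq_conj_mul_self] at huv
    have e2 : -Complex.normSq u = 1 := by exact_mod_cast huv
    linarith [Complex.normSq_nonneg u]
  obtain ⟨m, hm⟩ := nil hu hi h1 a3 (a1.trans a2.symm) huv (Or.inl he)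
  have key : Factors H X = {A, -A} := by
    ext B
    constructor
    · rintro ⟨T, k1, k2, k3, k4⟩
      obtain ⟨b1, b2, b3⟩ := facts hu k1 k2 k3 k4
      have c : U * B = A * T := by rw [← a1, mul_assoc, b2]
      by_cases hc : (T - u • 1).det = 0 ∨ (T - v • 1).det = 0
      · obtain ⟨m', hm'⟩ := nil hu hi k1 b3 (b1.trans b2.symm) huv hc
        have := syl (U := U) (T := -T) (D := A - B)
          (by rw [mul_sub, mul_neg, sub_mul, c, ← h3, ← k4, ← k3]; abel) hm
          (spec hm' (by simpa [← two_mul] using hu0) hs)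
          (spec hm' (by rwa [add_comm]) (by simpa [← two_mul] using hv0))
        exact Or.inl (sub_eq_zero.1 this).symm
      · push Not at hc
        have := syl (U := U) (T := T) (D := A + B)
          (by rw [mul_add, add_mul, c, ← h3, ← k4, ← k3]; abel) hm hc.1 hc.2
        exact Or.inr (eq_neg_of_add_eq_zero_right this)
    · rintro (rfl | rfl)
      · exact ⟨U, h1, h2, h3, h4⟩
      · refine ⟨-U, ?_, ?_, by simp [h3], by simp [h4]⟩
        · simpa [adj] using h1
        · simpa [adj] using h2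
  rw [key]
  refine Set.encard_pair fun h => hX ?_
  have : A = 0 := by
    have h5 : (2 : ℂ) • A = 0 := by rw [two_smul]; nth_rw 1 [h]; simp
    simpa using h5
  rw [h3, this, mul_zero]

end Pool.Agent.Results.MP_d7084b_al.Two
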